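import Pool.Agent.Helper57.QZ.Stmts2

set_option autoImplicit false

namespace Pool.Agent.Helper14.Q2

open MeasureTheory Set Filter Topology Pool.Agent.Helper57.QZ ArithmeticFunction

/-- the non-prime prime powers -/
noncomputable def np (ε : ℝ) (n : ℕ) : ℝ :=
  if n.Prime then 0 else vonMangoldt n * (n : ℝ) ^ (-(1 / 2 + ε))

theorem np_nonneg (ε : ℝ) (n : ℕ) : 0 ≤ np ε n := by
  unfold np
  split_ifs
  · exact le_rfl
  · exact mul_nonneg vonMangoldt_nonneg (Real.rpow_nonneg (Nat.cast_nonneg _) _)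

theorem vm_le (n : ℕ) : (vonMangoldt n : ℝ) ≤ 2 * (n : ℝ) ^ (1 / 2 : ℝ) := by
  refine vonMangoldt_le_log.trans ?_
  have := Real.log_le_rpow_div (Nat.cast_nonneg (α := ℝ) n) (show (0:ℝ) < 1 / 2 by norm_num)
  linarith [this]

/-- `(p, k) ↦ p ^ (k + 2)` -/
def pw (x : Nat.Primes × ℕ) : ℕ := (x.1 : ℕ) ^ (x.2 + 2)

theorem pw_inj : Function.Injective pw := by
  rintro ⟨p, k⟩ ⟨q, l⟩ h
  simp only [pw] at h
  have hpq : (p : ℕ) = q := by
    have h1 : (p : ℕ) ∣ (q : ℕ) ^ (l + 2) := by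
      rw [← h]
      exact dvd_pow_self _ (by omega)
    exact (Nat.prime_dvd_prime_iff_eq p.2 q.2).1 (p.2.dvd_of_dvd_pow h1)
  have hpq' : p = q := Subtype.ext hpq
  subst hpq'
  have h1 : k + 2 = l + 2 := Nat.pow_right_injective p.2.two_le h
  have h2 : k = l := by omega
  rw [h2]

theorem summable_np {ε : ℝ} (hε : 0 < ε) : Summable (np ε) := by
  refine (pw_inj.summable_iff ?_).1 ?_
  · intro n hn
    unfold np
    split_ifs with hp
    · rfl
    · by_cases hpp : IsPrimePow n
      · exfalso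
        rw [isPrimePow_nat_iff] at hpp
        obtain ⟨p, k, hp1, hk, rfl⟩ := hpp
        rcases Nat.lt_or_ge k 2 with h2 | h2
        · have : k = 1 := by omega
          subst this
          rw [pow_one] at hp
          exact hp hp1
        · refine hn ⟨(⟨p, hp1⟩, k - 2), ?_⟩
          show p ^ (k - 2 + 2) = p ^ k
          congr 1
          omega
      · rw [vonMangoldt_eq_zero_iff.2 hpp, zero_mul]
  · have h1 : Summable fun p : Nat.Primes => (1 / ε) * ((p : ℕ) : ℝ) ^ (-(1 + ε)) := by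
      refine Summable.mul_left _ ?_
      have h0 : Summable fun n : ℕ => (n : ℝ) ^ (-(1 + ε)) := by
        rw [Real.summable_nat_rpow]
        linarith
      exact h0.comp_injective (f := fun n : ℕ => (n : ℝ) ^ (-(1 + ε)))
        (i := fun p : Nat.Primes => (p : ℕ)) (fun a b h => Subtype.ext h)
    have h2 : Summable fun k : ℕ => (3 / 4 : ℝ) ^ k :=
      summable_geometric_of_lt_one (by norm_num) (by norm_num)
    have h3 := h1.mul_of_nonneg h2 (fun p => by positivity) (fun k => by positivity)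
    refine Summable.of_nonneg_of_le (fun x => np_nonneg _ _) ?_ h3
    rintro ⟨p, k⟩
    have hp2 : (2 : ℝ) ≤ ((p : ℕ) : ℝ) := by exact_mod_cast p.2.two_le
    have hp0 : (0 : ℝ) < ((p : ℕ) : ℝ) := by linarith
    have hr0 : 0 < ((p : ℕ) : ℝ) ^ (-(1 / 2 + ε)) := Real.rpow_pos_of_pos hp0 _
    have hr : ((p : ℕ) : ℝ) ^ (-(1 / 2 + ε)) ≤ 3 / 4 := by
      calc ((p : ℕ) : ℝ) ^ (-(1 / 2 + ε)) ≤ (2 : ℝ) ^ (-(1 / 2 + ε)) :=
            Real.rpow_le_rpow_of_nonpos (by norm_num) hp2 (by linarith)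
        _ ≤ (2 : ℝ) ^ (-(1 / 2) : ℝ) :=
            Real.rpow_le_rpow_of_exponent_le (by norm_num) (by linarith)
        _ ≤ 3 / 4 := by
            rw [Real.rpow_neg (by norm_num), ← Real.sqrt_eq_rpow, inv_le_comm₀
              (Real.sqrt_pos.2 (by norm_num)) (by norm_num)]
            refine Real.le_sqrt_of_sq_le ?_
            norm_num
    have hlog : Real.log ((p : ℕ) : ℝ) ≤ (1 / ε) * ((p : ℕ) : ℝ) ^ ε := by
      have := Real.log_le_rpow_div hp0.le hε
      rw [one_div, inv_mul_eq_div]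
      exact this
    show np ε ((p : ℕ) ^ (k + 2)) ≤ _
    have hnp : ¬ ((p : ℕ) ^ (k + 2)).Prime := Nat.Prime.not_prime_pow (by omega)
    unfold np
    rw [if_neg hnp, vonMangoldt_apply_pow (by omega), vonMangoldt_apply_prime p.2]
    push_cast
    have e1 : (((p : ℕ) : ℝ) ^ (k + 2)) ^ (-(1 / 2 + ε)) =
        (((p : ℕ) : ℝ) ^ (-(1 / 2 + ε))) ^ (k + 2) := by
      rw [← Real.rpow_natCast, ← Real.rpow_mul hp0.le, mul_comm, Real.rpow_mul hp0.le,
        Real.rpow_natCast]
    rw [e1, pow_add]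
    have e2 : (((p : ℕ) : ℝ) ^ (-(1 / 2 + ε))) ^ 2 = ((p : ℕ) : ℝ) ^ (-(1 + 2 * ε)) := by
      rw [← Real.rpow_natCast, ← Real.rpow_mul hp0.le]
      congr 1
      push_cast
      ring
    rw [e2]
    have e3 : ((p : ℕ) : ℝ) ^ ε * ((p : ℕ) : ℝ) ^ (-(1 + 2 * ε)) = ((p : ℕ) : ℝ) ^ (-(1 + ε)) := by
      rw [← Real.rpow_add hp0]
      congr 1
      ring
    have h4 : (((p : ℕ) : ℝ) ^ (-(1 / 2 + ε))) ^ k ≤ (3 / 4 : ℝ) ^ k :=
      pow_le_pow_left₀ hr0.le hr k
    calc Real.log ((p : ℕ) : ℝ) * ((((p : ℕ) : ℝ) ^ (-(1 / 2 + ε))) ^ k *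
          ((p : ℕ) : ℝ) ^ (-(1 + 2 * ε)))
        ≤ ((1 / ε) * ((p : ℕ) : ℝ) ^ ε) * ((3 / 4 : ℝ) ^ k *
          ((p : ℕ) : ℝ) ^ (-(1 + 2 * ε))) := by
          refine mul_le_mul hlog ?_ (by positivity) (by positivity)
          exact mul_le_mul_of_nonneg_right h4 (by positivity)
      _ = (1 / ε) * (((p : ℕ) : ℝ) ^ ε * ((p : ℕ) : ℝ) ^ (-(1 + 2 * ε))) * (3 / 4 : ℝ) ^ k := by
          ring
      _ = _ := by rw [e3]

theorem tail_np {ε : ℝ} (hε : 0 < ε) {δ : ℝ} (hδ : 0 < δ) : ∃ Z : ℕ, ∀ z : ℕ, Z ≤ z →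
    Summable (fun n : ℕ => if z < n then np ε n else 0) ∧
    ∑' n : ℕ, (if z < n then np ε n else 0) ≤ δ := by
  have hs := summable_np hε
  have h1 := tendsto_sum_nat_add (np ε)
  obtain ⟨Z, hZ⟩ := (Metric.tendsto_atTop.1 h1) δ hδ
  refine ⟨Z, fun z hz => ?_⟩
  have hS : Summable (fun n : ℕ => if z < n then np ε n else 0) := by
    refine Summable.of_nonneg_of_le (fun n => ?_) (fun n => ?_) hs
    · split_ifs
      exacts [np_nonneg _ _, le_rfl]
    · split_ifs
      exacts [le_rfl, np_nonneg _ _]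
  refine ⟨hS, ?_⟩
  rw [← hS.sum_add_tsum_nat_add (z + 1)]
  have h0 : ∑ i ∈ Finset.range (z + 1), (if z < i then np ε i else 0) = 0 := by
    refine Finset.sum_eq_zero fun i hi => ?_
    rw [Finset.mem_range] at hi
    rw [if_neg (by omega)]
  rw [h0, zero_add]
  have h2 : (fun i : ℕ => if z < i + (z + 1) then np ε (i + (z + 1)) else 0) =
      fun i : ℕ => np ε (i + (z + 1)) := by
    funext i
    rw [if_pos (by omega)]
  rw [h2]
  have h3 := hZ (z + 1) (by omega)
  rw [Real.dist_eq, sub_zero] at h3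
  exact (le_abs_self _).trans h3.le

/-- the terms of the series -/
noncomputable def tn (s : ℂ) (n : ℕ) : ℂ := (vonMangoldt n : ℂ) * (n : ℂ) ^ (-s)

theorem euler {x : ℝ} (hx : 0 < x) (z : ℕ) (t : ℝ) :
    HasSum (fun n : ℕ => if n.minFac ≤ z then tn (pt x t) n else 0) (-Wy z x (lin z t)) := by
  set s := pt x t with hs
  have hre : s.re = x := by simp [hs, pt]
  have key : ∀ p : Pr z, HasSum (fun n : ℕ => if n.minFac = (p : ℕ) then tn s n else 0)
      ((Real.log p : ℂ) * (Complex.exp (-((lin z t p : ℂ) * Complex.I)) * (aa x p : ℂ)) /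
    (1 - Complex.exp (-((lin z t p : ℂ) * Complex.I)) * (aa x p : ℂ))) := by
    intro p
    have hp : (p : ℕ).Prime := Nat.prime_of_mem_primesBelow p.2
    have hp0 : (0 : ℝ) < ((p : ℕ) : ℝ) := by exact_mod_cast hp.pos
    have hpc : ((p : ℕ) : ℂ) ≠ 0 := by exact_mod_cast hp.ne_zero
    have hq : Complex.exp (-((lin z t p : ℂ) * Complex.I)) * (aa x p : ℂ) =
        ((p : ℕ) : ℂ) ^ (-s) := by
      rw [Complex.cpow_def_of_ne_zero hpc]
      unfold aa lin
      rw [Real.rpow_def_of_pos hp0, Complex.ofReal_exp, ← Complex.exp_add]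
      congr 1
      rw [hs]
      unfold pt
      rw [← Complex.natCast_log]
      push_cast
      ring
    have hqn : ‖((p : ℕ) : ℂ) ^ (-s)‖ < 1 := by
      rw [Complex.norm_natCast_cpow_of_pos hp.pos, Complex.neg_re, hre]
      exact Real.rpow_lt_one_of_one_lt_of_neg (by exact_mod_cast hp.one_lt) (by linarith)
    rw [hq]
    set q := ((p : ℕ) : ℂ) ^ (-s) with hqd
    have hg := (hasSum_geometric_of_norm_lt_one hqn).mul_left ((Real.log p : ℂ) * q)
    rw [← div_eq_mul_inv] at hg
    have hinj : Function.Injective (fun k : ℕ => (p : ℕ) ^ (k + 1)) := by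
      intro a b h
      have := Nat.pow_right_injective hp.two_le h
      omega
    refine (hinj.hasSum_iff ?_).1 ?_
    · intro n hn
      split_ifs with hm
      · unfold tn
        by_cases hpp : IsPrimePow n
        · exfalso
          rw [isPrimePow_nat_iff] at hpp
          obtain ⟨r, k, hr, hk, rfl⟩ := hpp
          rw [hr.pow_minFac (by omega)] at hm
          refine hn ⟨k - 1, ?_⟩
          show (p : ℕ) ^ (k - 1 + 1) = r ^ k
          rw [hm]
          congr 1
          omega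
        · rw [vonMangoldt_eq_zero_iff.2 hpp]
          simp
      · rfl
    · have : ((fun n : ℕ => if n.minFac = (p : ℕ) then tn s n else 0) ∘
          fun k : ℕ => (p : ℕ) ^ (k + 1)) = fun k : ℕ => (Real.log p : ℂ) * q * q ^ k := by
        funext k
        simp only [Function.comp]
        rw [if_pos (hp.pow_minFac (by omega))]
        unfold tn
        rw [vonMangoldt_apply_pow (by omega), vonMangoldt_apply_prime hp]
        rw [Nat.cast_pow, ← Complex.natCast_cpow_natCast_mul, Complex.cpow_nat_mul, ← hqd, pow_succ]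
        ring
      rw [this]
      exact hg
  have hsum := hasSum_sum (s := (Finset.univ : Finset (Pr z))) fun p _ => key p
  have e1 : (∑ p : Pr z, (Real.log p : ℂ) *
      (Complex.exp (-((lin z t p : ℂ) * Complex.I)) * (aa x p : ℂ)) /
      (1 - Complex.exp (-((lin z t p : ℂ) * Complex.I)) * (aa x p : ℂ))) = -Wy z x (lin z t) := by
    unfold Wy
    rw [neg_neg]
  rw [e1] at hsum
  have e2 : (fun n : ℕ => ∑ p : Pr z, if n.minFac = (p : ℕ) then tn s n else 0) =
      fun n : ℕ => if n.minFac ≤ z then tn s n else 0 := by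
    funext n
    by_cases hn : n = 1
    · subst hn
      have : tn s 1 = 0 := by
        unfold tn
        simp
      rw [this]
      simp
    · have hpm := Nat.minFac_prime hn
      split_ifs with hz
      · have hmem : n.minFac ∈ Nat.primesBelow (z + 1) := Nat.mem_primesBelow.2 ⟨by omega, hpm⟩
        rw [Finset.sum_eq_single (⟨n.minFac, hmem⟩ : Pr z)]
        · rw [if_pos rfl]
        · intro p _ hp
          rw [if_neg]
          intro h
          exact hp (Subtype.ext h.symm)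
        · intro h
          exact absurd (Finset.mem_univ _) h
      · refine Finset.sum_eq_zero fun p _ => ?_
        rw [if_neg]
        intro h
        have := Nat.lt_of_mem_primesBelow p.2
        omega
  rw [e2] at hsum
  exact hsum

end Pool.Agent.Helper14.Q2
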