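import Pool.Agent.Helper14.Q2.GD1A

set_option autoImplicit false

namespace Pool.Agent.Helper14.Q2

open MeasureTheory Set Filter Topology Pool.Agent.Helper57.QZ ArithmeticFunction

theorem norm_tn (x t : ℝ) {n : ℕ} (hn : 1 ≤ n) :
    ‖tn (pt x t) n‖ = vonMangoldt n * (n : ℝ) ^ (-x) := by
  unfold tn
  rw [norm_mul, Complex.norm_natCast_cpow_of_pos (by omega), Complex.norm_real,
    Real.norm_of_nonneg vonMangoldt_nonneg]
  simp [pt]

theorem tn_zero (s : ℂ) : tn s 0 = 0 := by
  unfold tn
  simp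

theorem tn_le {x t ε : ℝ} (hx : 1 / 2 + ε ≤ x) {n : ℕ} (hn : 1 ≤ n) :
    ‖tn (pt x t) n‖ ≤ vonMangoldt n * (n : ℝ) ^ (-(1 / 2 + ε)) := by
  rw [norm_tn x t hn]
  refine mul_le_mul_of_nonneg_left ?_ vonMangoldt_nonneg
  exact Real.rpow_le_rpow_of_exponent_le (by exact_mod_cast hn) (by linarith)

theorem tn_le2 {x t : ℝ} (hx : 1 / 2 ≤ x) {n : ℕ} (hn : 1 ≤ n) :
    ‖tn (pt x t) n‖ ≤ 2 := by
  have hn0 : (0 : ℝ) < n := by exact_mod_cast hn
  have h1 := tn_le (x := x) (t := t) (ε := 0) (by linarith) hn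
  refine h1.trans ?_
  calc vonMangoldt n * (n : ℝ) ^ (-(1 / 2 + (0 : ℝ)))
      ≤ 2 * (n : ℝ) ^ (1 / 2 : ℝ) * (n : ℝ) ^ (-(1 / 2 + (0 : ℝ))) :=
        mul_le_mul_of_nonneg_right (vm_le n) (by positivity)
    _ = 2 := by
        rw [mul_assoc, ← Real.rpow_add hn0]
        norm_num

theorem tnKK {C Y H x t : ℝ} (hC : 0 < C) (hY : 1 ≤ Y) (hx : x ∈ Icc (1 / 2 : ℝ) 4) {n : ℕ}
    (hn : 1 ≤ n) (h : ‖KK Y H x n‖ ≤ C * (Y / n) ^ (5 - x)) :
    ‖tn (pt x t) n‖ * ‖KK Y H x n‖ ≤ 2 * C * Y ^ 5 * (n : ℝ) ^ (-(9 / 2) : ℝ) := by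
  have hn0 : (0 : ℝ) < n := by exact_mod_cast hn
  have hY0 : 0 < Y := by linarith
  have h2 : (Y / n) ^ (5 - x) = Y ^ (5 - x) * (n : ℝ) ^ (-(5 - x)) := by
    rw [Real.div_rpow hY0.le hn0.le, Real.rpow_neg hn0.le, div_eq_mul_inv]
  have h3 : Y ^ (5 - x) ≤ Y ^ 5 := by
    rw [← Real.rpow_natCast]
    exact Real.rpow_le_rpow_of_exponent_le hY (by push_cast; linarith [hx.1])
  rw [norm_tn x t hn]
  calc vonMangoldt n * (n : ℝ) ^ (-x) * ‖KK Y H x n‖
      ≤ 2 * (n : ℝ) ^ (1 / 2 : ℝ) * (n : ℝ) ^ (-x) * (C * (Y ^ 5 * (n : ℝ) ^ (-(5 - x)))) := by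
        refine mul_le_mul ?_ ?_ (norm_nonneg _) (by positivity)
        · exact mul_le_mul_of_nonneg_right (vm_le n) (by positivity)
        · refine h.trans ?_
          rw [h2]
          refine mul_le_mul_of_nonneg_left ?_ hC.le
          exact mul_le_mul_of_nonneg_right h3 (by positivity)
    _ = 2 * C * Y ^ 5 * ((n : ℝ) ^ (1 / 2 : ℝ) * ((n : ℝ) ^ (-x) * (n : ℝ) ^ (-(5 - x)))) := by
        ring
    _ = _ := by
        rw [← Real.rpow_add hn0, ← Real.rpow_add hn0]
        congr 2
        ring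

theorem core {C ε : ℝ} (hC : 0 < C)
    (hKE : ∀ (Y H x : ℝ) (n : ℕ), 2 ≤ Y → 1 ≤ H → x ∈ Icc (1 / 2 : ℝ) 4 →
      1 ≤ n → ‖KK Y H x n‖ ≤ C * (Y / n) ^ (5 - x) ∧
      ((n : ℝ) ≤ Y → ‖KK Y H x n - 1‖ ≤ C * (n / Y + Y ^ (5:ℝ) * Real.exp (-(H ^ 2)))))
    (hε : 0 < ε) {z : ℕ} (hz : 2 ≤ z) {H : ℝ} (hH : 1 ≤ H)
    (hE : (z : ℝ) ^ 15 * Real.exp (-(H ^ 2)) ≤ 1) {x : ℝ} (hx : x ∈ Icc (1 / 2 + ε) 4) (t : ℝ)
    (hS : Summable (fun n : ℕ => if z < n then np ε n else 0)) :
    ‖(∑' n : ℕ, tn (pt x t) n * KK ((z : ℝ) ^ 3) H x n) + Wy z x (lin z t) -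
      ∑ p ∈ Pz z, ((Real.log p * (p : ℝ) ^ (-x) : ℝ) : ℂ) * KK ((z : ℝ) ^ 3) H x p *
        Complex.exp (-((t * Real.log p : ℝ) * Complex.I))‖ ≤
      4 * C * (1 / z + z * ((z : ℝ) ^ 15 * Real.exp (-(H ^ 2)))) +
      (2 + 2 * C) * (∑' n : ℕ, if z < n then np ε n else 0) +
      2 * C / (z : ℝ) ^ 3 * ∑' n : ℕ, (n : ℝ) ^ (-(3 / 2) : ℝ) := by
  set s := pt x t with hs
  set Y : ℝ := (z : ℝ) ^ 3 with hYd
  set E : ℝ := (z : ℝ) ^ 15 * Real.exp (-(H ^ 2)) with hEd
  have hE0 : 0 ≤ E := by positivity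
  have hz2 : (2 : ℝ) ≤ z := by exact_mod_cast hz
  have hz0 : (0 : ℝ) < z := by linarith
  have hzY : (z : ℝ) ≤ Y := by
    rw [hYd]
    exact le_self_pow₀ (by linarith) (by norm_num)
  have hY2 : 2 ≤ Y := hz2.trans hzY
  have hY0 : 0 < Y := by linarith
  have hxx : x ∈ Icc (1 / 2 : ℝ) 4 := ⟨by linarith [hx.1], hx.2⟩
  have hYE : Y ^ (5:ℝ) * Real.exp (-(H ^ 2)) = E := by
    rw [hEd, hYd]
    congr 1
    rw [show (5:ℝ) = ((5 : ℕ) : ℝ) by norm_num, Real.rpow_natCast, ← pow_mul]
  have K1 : ∀ n : ℕ, 1 ≤ n → ‖KK Y H x n‖ ≤ C * (Y / n) ^ (5 - x) := fun n hn =>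
    (hKE Y H x n hY2 hH hxx hn).1
  have K2 : ∀ n : ℕ, 1 ≤ n → (n : ℝ) ≤ Y → ‖KK Y H x n - 1‖ ≤ C * (n / Y + E) := by
    intro n hn hnY
    have := (hKE Y H x n hY2 hH hxx hn).2 hnY
    rwa [hYE] at this
  have K3 : ∀ n : ℕ, 1 ≤ n → ‖KK Y H x n‖ ≤ 1 + 2 * C := by
    intro n hn
    have hn0 : (0 : ℝ) < n := by exact_mod_cast hn
    rcases le_total (n : ℝ) Y with h | h
    · have h1 := K2 n hn h
      have h2 : C * (n / Y + E) ≤ C * 2 := by
        refine mul_le_mul_of_nonneg_left ?_ hC.le
        have : (n : ℝ) / Y ≤ 1 := (div_le_one hY0).2 h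
        linarith
      have h3 : ‖KK Y H x n‖ ≤ ‖KK Y H x n - 1‖ + 1 := by
        have := norm_add_le (KK Y H x n - 1) 1
        simpa using this
      linarith
    · have h1 := K1 n hn
      have h2 : (Y / n) ^ (5 - x) ≤ 1 :=
        Real.rpow_le_one (by positivity) ((div_le_one hn0).2 h) (by linarith [hx.2])
      have h3 : C * (Y / n) ^ (5 - x) ≤ C * 1 := mul_le_mul_of_nonneg_left h2 hC.le
      linarith
  -- summability of the series
  have hsum92 : Summable fun n : ℕ => 2 * C * Y ^ 5 * (n : ℝ) ^ (-(9 / 2) : ℝ) := by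
    refine Summable.mul_left _ ?_
    rw [Real.summable_nat_rpow]
    norm_num
  have hsumT : Summable fun n : ℕ => tn s n * KK Y H x n := by
    refine Summable.of_norm_bounded hsum92 fun n => ?_
    rcases Nat.eq_zero_or_pos n with rfl | hn
    · rw [hs, tn_zero, zero_mul, norm_zero]
      positivity
    · rw [norm_mul]
      exact tnKK hC (by linarith) hxx hn (K1 n hn)
  have hW := euler (x := x) (by linarith [hx.1]) z t
  rw [← hs] at hW
  set pz : ℕ → ℂ := fun n => if n ∈ Pz z then ((Real.log n * (n : ℝ) ^ (-x) : ℝ) : ℂ) *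
    KK Y H x n * Complex.exp (-((t * Real.log n : ℝ) * Complex.I)) else 0 with hpz
  have hP : HasSum pz (∑ p ∈ Pz z, pz p) := by
    refine hasSum_sum_of_ne_finset_zero fun n hn => ?_
    rw [hpz]
    simp only
    rw [if_neg hn]
  have hP2 : ∑ p ∈ Pz z, pz p = ∑ p ∈ Pz z, ((Real.log p * (p : ℝ) ^ (-x) : ℝ) : ℂ) *
      KK Y H x p * Complex.exp (-((t * Real.log p : ℝ) * Complex.I)) := by
    refine Finset.sum_congr rfl fun p hp => ?_
    rw [hpz]
    simp only
    rw [if_pos hp]
  rw [hP2] at hP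
  have hD := (hsumT.hasSum.sub hW).sub hP
  have hDe : (∑' n : ℕ, tn s n * KK Y H x n) + Wy z x (lin z t) -
      ∑ p ∈ Pz z, ((Real.log p * (p : ℝ) ^ (-x) : ℝ) : ℂ) * KK Y H x p *
        Complex.exp (-((t * Real.log p : ℝ) * Complex.I)) =
      ∑' n : ℕ, (tn s n * KK Y H x n - (if n.minFac ≤ z then tn s n else 0) - pz n) := by
    rw [hD.tsum_eq]
    ring
  rw [hDe]
  -- the bounding series
  have hb1 : HasSum (fun n : ℕ => if n ≤ z then 2 * C * (1 / (z : ℝ) ^ 2 + E) else 0)
      ((z + 1) * (2 * C * (1 / (z : ℝ) ^ 2 + E))) := by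
    have : HasSum (fun n : ℕ => if n ≤ z then 2 * C * (1 / (z : ℝ) ^ 2 + E) else 0)
        (∑ n ∈ Finset.range (z + 1), if n ≤ z then 2 * C * (1 / (z : ℝ) ^ 2 + E) else 0) :=
      hasSum_sum_of_ne_finset_zero (fun n hn => by
        rw [Finset.mem_range] at hn
        rw [if_neg (by omega)])
    rw [Finset.sum_congr rfl (fun n hn => if_pos (by rw [Finset.mem_range] at hn; omega)),
      Finset.sum_const, Finset.card_range, nsmul_eq_mul] at this
    push_cast at this
    exact this
  have hb2 := hS.hasSum.mul_left (2 + 2 * C)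
  have hs32 : Summable fun n : ℕ => (n : ℝ) ^ (-(3 / 2) : ℝ) := by
    rw [Real.summable_nat_rpow]
    norm_num
  have hb3 := hs32.hasSum.mul_left (2 * C / Y)
  have hb := (hb1.add hb2).add hb3
  have hle : (z + 1) * (2 * C * (1 / (z : ℝ) ^ 2 + E)) ≤
      4 * C * (1 / z + z * E) := by
    have h1 : ((z : ℝ) + 1) ≤ 2 * z := by linarith
    have h2 : 0 ≤ 2 * C * (1 / (z : ℝ) ^ 2 + E) := by positivity
    calc ((z : ℝ) + 1) * (2 * C * (1 / (z : ℝ) ^ 2 + E)) ≤
        2 * z * (2 * C * (1 / (z : ℝ) ^ 2 + E)) := mul_le_mul_of_nonneg_right h1 h2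
      _ = _ := by
        field_simp
        ring
  have hmain := tsum_of_norm_bounded hb (f := fun n : ℕ =>
    (tn s n * KK Y H x n - (if n.minFac ≤ z then tn s n else 0) - pz n)) ?_
  · refine hmain.trans ?_
    linarith
  · intro n
    have hnp := np_nonneg ε n
    have h32 : 0 ≤ 2 * C / Y * (n : ℝ) ^ (-(3 / 2) : ℝ) := by positivity
    rcases Nat.eq_zero_or_pos n with rfl | hn
    · have : pz 0 = 0 := by
        rw [hpz]
        simp only
        rw [if_neg]
        unfold Pz
        simp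
      rw [hs, tn_zero, this]
      simp only [zero_mul, ite_self, sub_zero, norm_zero]
      rw [if_pos (Nat.zero_le _), if_neg (by omega)]
      positivity
    · rcases le_or_gt n z with hnz | hnz
      · -- small n
        have hnr : (n : ℝ) ≤ z := by exact_mod_cast hnz
        have h1 : n.minFac ≤ z := (Nat.minFac_le hn).trans hnz
        have h2 : pz n = 0 := by
          rw [hpz]
          simp only
          rw [if_neg]
          unfold Pz
          simp only [Finset.mem_filter, Finset.mem_Icc]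
          omega
        rw [if_pos h1, h2, sub_zero, if_pos hnz, if_neg (by omega)]
        have e : tn s n * KK Y H x n - tn s n = tn s n * (KK Y H x n - 1) := by ring
        rw [e, norm_mul]
        have h3 := K2 n hn (hnr.trans hzY)
        have h4 : (n : ℝ) / Y ≤ 1 / (z : ℝ) ^ 2 := by
          rw [div_le_div_iff₀ hY0 (by positivity), hYd]
          have : (n : ℝ) * (z : ℝ) ^ 2 ≤ z * (z : ℝ) ^ 2 :=
            mul_le_mul_of_nonneg_right hnr (by positivity)
          linarith [this, show (z : ℝ) * (z : ℝ) ^ 2 = (z : ℝ) ^ 3 by ring]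
        have h5 : ‖tn s n‖ * ‖KK Y H x n - 1‖ ≤ 2 * (C * (1 / (z : ℝ) ^ 2 + E)) := by
          refine mul_le_mul (tn_le2 hxx.1 hn) (h3.trans ?_) (norm_nonneg _) (by norm_num)
          exact mul_le_mul_of_nonneg_left (by linarith) hC.le
        simp only [mul_zero, add_zero]
        linarith
      · rw [if_neg (by omega : ¬ n ≤ z), if_pos hnz, zero_add]
        by_cases hpr : n.Prime
        · have h1 : ¬ n.minFac ≤ z := by
            rw [hpr.minFac_eq]
            omega
          rw [if_neg h1, sub_zero]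
          by_cases h6 : n ≤ z ^ 6
          · have h2 : n ∈ Pz z := by
              unfold Pz
              rw [Finset.mem_filter, Finset.mem_Icc]
              exact ⟨⟨hnz, h6⟩, hpr⟩
            have h3 : tn s n * KK Y H x n - pz n = 0 := by
              rw [hpz]
              simp only
              rw [if_pos h2]
              have hn0 : (0 : ℝ) < n := by exact_mod_cast hn
              have hnc : (n : ℂ) ≠ 0 := by exact_mod_cast hn.ne'
              have : tn s n = ((Real.log n * (n : ℝ) ^ (-x) : ℝ) : ℂ) *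
                  Complex.exp (-((t * Real.log n : ℝ) * Complex.I)) := by
                unfold tn
                rw [vonMangoldt_apply_prime hpr, Complex.cpow_def_of_ne_zero hnc,
                  Real.rpow_def_of_pos hn0]
                rw [Complex.ofReal_mul, Complex.ofReal_exp, mul_assoc, ← Complex.exp_add]
                congr 2
                rw [hs]
                unfold pt
                rw [← Complex.natCast_log]
                push_cast
                ring
              rw [this]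
              ring
            rw [h3, norm_zero]
            positivity
          · have h2 : pz n = 0 := by
              rw [hpz]
              simp only
              rw [if_neg]
              unfold Pz
              simp only [Finset.mem_filter, Finset.mem_Icc]
              omega
            rw [h2, sub_zero, norm_mul]
            have h3 := tnKK (t := t) hC (by linarith) hxx hn (K1 n hn)
            rw [← hs] at h3
            have hn0 : (0 : ℝ) < n := by exact_mod_cast hn
            have h4 : 2 * C * Y ^ 5 * (n : ℝ) ^ (-(9 / 2) : ℝ) ≤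
                2 * C / Y * (n : ℝ) ^ (-(3 / 2) : ℝ) := by
              have h5 : Y ^ 6 ≤ (n : ℝ) ^ 3 := by
                have h7 : z ^ 6 ≤ n := by omega
                have h8 : ((z ^ 6 : ℕ) : ℝ) ≤ n := by exact_mod_cast h7
                push_cast at h8
                have h9 : Y ^ 6 = ((z : ℝ) ^ 6) ^ 3 := by
                  rw [hYd]
                  ring
                rw [h9]
                exact pow_le_pow_left₀ (by positivity) h8 3
              have h10 : (n : ℝ) ^ (-(3 / 2) : ℝ) = (n : ℝ) ^ 3 * (n : ℝ) ^ (-(9 / 2) : ℝ) := by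
                rw [← Real.rpow_natCast, ← Real.rpow_add hn0]
                norm_num
              rw [h10]
              have h11 : 2 * C * Y ^ 5 = 2 * C / Y * Y ^ 6 := by
                field_simp
              rw [h11, mul_assoc (2 * C / Y)]
              refine mul_le_mul_of_nonneg_left ?_ (by positivity)
              exact mul_le_mul_of_nonneg_right h5 (by positivity)
            have h5 : 0 ≤ (2 + 2 * C) * np ε n := by positivity
            linarith
        · have h2 : pz n = 0 := by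
            rw [hpz]
            simp only
            rw [if_neg]
            unfold Pz
            simp only [Finset.mem_filter]
            exact fun h => hpr h.2
          rw [h2, sub_zero]
          have h3 : ‖tn s n‖ ≤ np ε n := by
            unfold np
            rw [if_neg hpr]
            exact tn_le hx.1 hn
          have h4 : ‖(if n.minFac ≤ z then tn s n else 0)‖ ≤ np ε n := by
            split_ifs
            · exact h3
            · rw [norm_zero]
              exact hnp
          have h5 : ‖tn s n * KK Y H x n‖ ≤ np ε n * (1 + 2 * C) := by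
            rw [norm_mul]
            exact mul_le_mul h3 (K3 n hn) (norm_nonneg _) hnp
          have h6 := norm_sub_le (tn s n * KK Y H x n) (if n.minFac ≤ z then tn s n else 0)
          have h7 : np ε n * (1 + 2 * C) + np ε n = (2 + 2 * C) * np ε n := by ring
          linarith

end Pool.Agent.Helper14.Q2
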